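import Pool.Agent.H9.MDim.Defs
import Pool.Agent.H9.MDim.UpperMain
import Pool.Agent.H9.MDim.Small1
import Pool.Agent.H9.MDim.Small2
import Pool.Agent.H9.MDim.Small3

/-! The multiset dimension of all cylinders `C_n □ P_m`, `n ≥ 4`, `m ≥ 1`. -/

namespace Pool.Agent.Results.MP_f7c741_co.Cylinders

open SimpleGraph Pool.Agent.H9.MDim

theorem four_le_of_not_three {n m : ℕ} (hn : 4 ≤ n) (hm : 2 ≤ m) (h3 : ¬ Three n m) :
    (4 : ℕ∞) ≤ mdim (cycleGraph n □ pathGraph m) := by
  apply le_mdim_of _ 4
  intro S hS
  have h1 := three_le_card hn (by omega) S hS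
  rcases Nat.lt_or_ge 3 S.card with h | h
  · exact h
  · exact absurd hS (not_resolving_three hn hm h3 S (by omega))

theorem five_le_of_five {n m : ℕ} (h : Five n m) :
    (5 : ℕ∞) ≤ mdim (cycleGraph n □ pathGraph m) := by
  have key : ∀ (n m : ℕ), 4 ≤ n → 2 ≤ m → ¬ Three n m →
      (∀ S : Finset (Fin n × Fin m), S.card = 4 →
        ¬ IsMultisetResolving (cycleGraph n □ pathGraph m) S) →
      (5 : ℕ∞) ≤ mdim (cycleGraph n □ pathGraph m) := by
    intro n m hn hm h3 h4
    apply le_mdim_of _ 5
    intro S hS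
    have h1 := three_le_card hn (by omega) S hS
    have h2 : S.card ≠ 3 := fun h => not_resolving_three hn hm h3 S h hS
    have h5 : S.card ≠ 4 := fun h => h4 S h hS
    omega
  unfold Five at h
  rcases h with ⟨rfl, rfl | rfl⟩ | ⟨rfl, rfl | rfl⟩ | ⟨rfl, rfl | rfl | rfl | rfl⟩ |
    ⟨rfl, rfl | rfl | rfl⟩
  · exact key _ _ (by norm_num) (by norm_num) (by unfold Three; omega) fun S hS =>
      not_resolving_of_full (by norm_num) (by norm_num) (by norm_num) (by norm_num)
        full_4_3 valid_4_3 S hS
  · exact key _ _ (by norm_num) (by norm_num) (by unfold Three; omega) fun S hS =>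
      not_resolving_of_full (by norm_num) (by norm_num) (by norm_num) (by norm_num)
        full_4_4 valid_4_4 S hS
  · exact key _ _ (by norm_num) (by norm_num) (by unfold Three; omega) fun S hS =>
      not_resolving_of_full (by norm_num) (by norm_num) (by norm_num) (by norm_num)
        full_5_3 valid_5_3 S hS
  · exact key _ _ (by norm_num) (by norm_num) (by unfold Three; omega) fun S hS =>
      not_resolving_of_full (by norm_num) (by norm_num) (by norm_num) (by norm_num)
        full_5_4 valid_5_4 S hS
  · exact key _ _ (by norm_num) (by norm_num) (by unfold Three; omega) fun S hS =>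
      not_resolving_of_full (by norm_num) (by norm_num) (by norm_num) (by norm_num)
        full_6_2 valid_6_2 S hS
  · exact key _ _ (by norm_num) (by norm_num) (by unfold Three; omega) fun S hS =>
      not_resolving_of_full (by norm_num) (by norm_num) (by norm_num) (by norm_num)
        full_6_3 valid_6_3 S hS
  · exact key _ _ (by norm_num) (by norm_num) (by unfold Three; omega) fun S hS =>
      not_resolving_of_full (by norm_num) (by norm_num) (by norm_num) (by norm_num)
        full_6_4 valid_6_4 S hS
  · exact key _ _ (by norm_num) (by norm_num) (by unfold Three; omega) fun S hS =>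
      not_resolving_of_full (by norm_num) (by norm_num) (by norm_num) (by norm_num)
        full_6_5 valid_6_5 S hS
  · exact key _ _ (by norm_num) (by norm_num) (by unfold Three; omega) fun S hS =>
      not_resolving_of_full (by norm_num) (by norm_num) (by norm_num) (by norm_num)
        full_7_2 valid_7_2 S hS
  · exact key _ _ (by norm_num) (by norm_num) (by unfold Three; omega) fun S hS =>
      not_resolving_of_full (by norm_num) (by norm_num) (by norm_num) (by norm_num)
        full_7_3 valid_7_3 S hS
  · exact key _ _ (by norm_num) (by norm_num) (by unfold Three; omega) fun S hS =>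
      not_resolving_of_full (by norm_num) (by norm_num) (by norm_num) (by norm_num)
        full_7_5 valid_7_5 S hS

theorem top_of_small {n m : ℕ} (hn : 4 ≤ n) (hm : 1 ≤ m) (h : m ≤ 2 ∧ n ≤ 5) :
    mdim (cycleGraph n □ pathGraph m) = ⊤ := by
  have key : ∀ (n m : ℕ), (∀ S : Finset (Fin n × Fin m),
        ¬ IsMultisetResolving (cycleGraph n □ pathGraph m) S) →
      mdim (cycleGraph n □ pathGraph m) = ⊤ := by
    intro n m h4
    unfold mdim
    rw [iInf₂_eq_top]
    intro S hS
    exact absurd hS (h4 S)
  have h1 : (n = 4 ∧ m = 1) ∨ (n = 5 ∧ m = 1) ∨ (n = 4 ∧ m = 2) ∨ (n = 5 ∧ m = 2) := by omega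
  rcases h1 with ⟨rfl, rfl⟩ | ⟨rfl, rfl⟩ | ⟨rfl, rfl⟩ | ⟨rfl, rfl⟩
  · exact key _ _ none_4_1
  · exact key _ _ none_5_1
  · exact key _ _ none_4_2
  · exact key _ _ none_5_2

/-- The multiset dimension of `C_n □ P_m` for all `n ≥ 4` and `m ≥ 1`. -/
theorem result (n m : ℕ) (hn : 4 ≤ n) (hm : 1 ≤ m) :
    mdim (cycleGraph n □ pathGraph m) =
      if n ≤ 5 ∧ m ≤ 2 then ⊤
      else if (n, m) ∈ ({(4, 3), (4, 4), (5, 3), (5, 4), (6, 2), (6, 3), (6, 4), (6, 5),
        (7, 2), (7, 3), (7, 5)} : Finset (ℕ × ℕ)) then 5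
      else if (m = 1 ∧ 6 ≤ n) ∨ (m % 2 = 1 ∧ 6 * m ≤ n ∧ n ≠ 6 * m + 2) ∨
        (m % 2 = 0 ∧ 6 * m - 1 ≤ n ∧ n ≠ 6 * m + 1) then 3
      else 4 := by
  split_ifs with h1 h2 h3
  · exact top_of_small hn hm ⟨h1.2, h1.1⟩
  · have h5 : Five n m := by
      simp only [Finset.mem_insert, Finset.mem_singleton, Prod.mk.injEq] at h2
      unfold Five
      omega
    exact le_antisymm (le_five h5) (five_le_of_five h5)
  · have h4 : Three n m := by
      unfold Three
      omega
    refine le_antisymm (le_three_of_Three hn hm h4) ?_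
    exact le_mdim_of _ 3 fun S hS => three_le_card hn hm S hS
  · have h5 : ¬ Five n m := by
      simp only [Finset.mem_insert, Finset.mem_singleton, Prod.mk.injEq] at h2
      unfold Five
      omega
    have h4 : ¬ Three n m := by
      unfold Three
      omega
    refine le_antisymm (le_four hn hm (by omega) h5 h4) (four_le_of_not_three hn ?_ h4)
    omega

end Pool.Agent.Results.MP_f7c741_co.Cylinders
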